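import Pool.Agent.R409.RA.Gen

/-!
# The correction function of an Euler product at the central point
-/

set_option autoImplicit false

namespace Pool.Agent.R409.RA

open NumberField IsDedekindDomain Filter Topology MeasureTheory
open Pool.Agent.TH339.MP (nm two_le_nm)

variable {K : Type} [Field K] [NumberField K] {N : ℕ}

/-- `q_v^{-w}` -/
noncomputable def yv (v : HeightOneSpectrum (𝓞 K)) (w : ℂ) : ℂ :=
  Complex.exp (-(w * (Real.log (nm v) : ℝ)))

lemma norm_yv (v : HeightOneSpectrum (𝓞 K)) (w : ℂ) : ‖yv v w‖ = (nm v : ℝ) ^ (-w.re) := by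
  unfold yv
  rw [Complex.norm_exp, Complex.neg_re, Complex.re_mul_ofReal, Real.rpow_def_of_pos (nm_pos v)]
  congr 1
  ring

lemma norm_yv_le (v : HeightOneSpectrum (𝓞 K)) {w : ℂ} (hw : 0 ≤ w.re) : ‖yv v w‖ ≤ 1 := by
  rw [norm_yv]
  exact Real.rpow_le_one_of_one_le_of_nonpos (by linarith [two_le v]) (by linarith)

lemma log_nm_nonneg (v : HeightOneSpectrum (𝓞 K)) : 0 ≤ Real.log (nm v) :=
  Real.log_nonneg (by linarith [two_le v])

lemma one_sub_yv (v : HeightOneSpectrum (𝓞 K)) {w : ℂ} (hw : 0 ≤ w.re) :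
    ‖1 - yv v w‖ ≤ ‖w‖ * Real.log (nm v) := by
  unfold yv
  rw [norm_sub_rev]
  refine (Pool.Agent.W189.ML.norm_exp_sub_one_le_of_re ?_).trans (le_of_eq ?_)
  · rw [Complex.neg_re, Complex.re_mul_ofReal]
    have := mul_nonneg hw (log_nm_nonneg v)
    linarith
  · rw [norm_neg, norm_mul, Complex.norm_real, Real.norm_of_nonneg (log_nm_nonneg v)]

lemma one_sub_yv_two (v : HeightOneSpectrum (𝓞 K)) {w : ℂ} (hw : 0 ≤ w.re) :
    ‖1 - yv v w‖ ≤ 2 := by
  refine (norm_sub_le _ _).trans ?_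
  rw [norm_one]
  linarith [norm_yv_le v hw]

/-- the parameters at the central point -/
def Cen (a : HeightOneSpectrum (𝓞 K) → Fin N → ℂ) : Prop :=
  ∀ v j, ‖a v j‖ ≤ (nm v : ℝ) ^ (-(1 / 2) : ℝ)

variable {a : HeightOneSpectrum (𝓞 K) → Fin N → ℂ}

lemma Cen.sq (h : Cen a) (v : HeightOneSpectrum (𝓞 K)) (j : Fin N) :
    ‖a v j‖ ^ 2 ≤ (nm v : ℝ) ^ (-1 : ℝ) := by
  have h1 : ((nm v : ℝ) ^ (-(1 / 2) : ℝ)) ^ 2 = (nm v : ℝ) ^ (-1 : ℝ) := by
    rw [← Real.rpow_natCast, ← Real.rpow_mul (nm_pos v).le]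
    norm_num
  rw [← h1]
  exact pow_le_pow_left₀ (norm_nonneg _) (h v j) 2

lemma Cen.le34 (h : Cen a) (v : HeightOneSpectrum (𝓞 K)) (j : Fin N) : ‖a v j‖ ≤ 3 / 4 := by
  have h1 := h.sq v j
  rw [Real.rpow_neg_one] at h1
  have h2 : ((nm v : ℝ))⁻¹ ≤ 1 / 2 := by
    rw [one_div]
    exact inv_anti₀ (by norm_num) (two_le v)
  nlinarith [norm_nonneg (a v j)]

/-- the logarithm of the inverse local factor at the central point -/
noncomputable def cv (a : HeightOneSpectrum (𝓞 K) → Fin N → ℂ) (v : HeightOneSpectrum (𝓞 K)) : ℂ :=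
  ∑ j, Complex.log (1 - a v j)

/-- the terms of the correction function -/
noncomputable def gt (a : HeightOneSpectrum (𝓞 K) → Fin N → ℂ) (v : HeightOneSpectrum (𝓞 K))
    (w : ℂ) : ℂ :=
  ∑ j, (-Complex.log (1 - a v j * yv v w) + yv v w * Complex.log (1 - a v j))

/-- the correction function -/
noncomputable def GG (a : HeightOneSpectrum (𝓞 K) → Fin N → ℂ) (w : ℂ) : ℂ := ∑' v, gt a v w

/-- the Dirichlet series -/
noncomputable def SS (a : HeightOneSpectrum (𝓞 K) → Fin N → ℂ) (w : ℂ) : ℂ :=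
  ∑' v, cv a v * yv v w

lemma norm_cv (h : Cen a) (v : HeightOneSpectrum (𝓞 K)) :
    ‖cv a v‖ ≤ 4 * N * (nm v : ℝ) ^ (-(1 / 2) : ℝ) := by
  unfold cv
  refine (norm_sum_le_of_le (n := fun _ => 4 * (nm v : ℝ) ^ (-(1 / 2) : ℝ)) _ fun j _ => ?_).trans
    (le_of_eq ?_)
  · exact (log_bound (h.le34 v j)).trans (mul_le_mul_of_nonneg_left (h v j) (by norm_num))
  · rw [Finset.sum_const, Finset.card_univ, Fintype.card_fin, nsmul_eq_mul]
    ring

lemma norm_cv_yv (h : Cen a) (v : HeightOneSpectrum (𝓞 K)) (w : ℂ) :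
    ‖cv a v * yv v w‖ ≤ 4 * N * (nm v : ℝ) ^ (-(1 / 2 + w.re)) := by
  rw [norm_mul, norm_yv]
  have h1 : (nm v : ℝ) ^ (-(1 / 2 + w.re)) = (nm v : ℝ) ^ (-(1 / 2) : ℝ) * (nm v : ℝ) ^ (-w.re) := by
    rw [← Real.rpow_add (nm_pos v)]
    congr 1
    ring
  rw [h1, ← mul_assoc]
  exact mul_le_mul_of_nonneg_right (norm_cv h v) (Real.rpow_nonneg (nm_pos v).le _)

lemma norm_gt (h : Cen a) (v : HeightOneSpectrum (𝓞 K)) {w : ℂ} (hw : 0 ≤ w.re) :
    ‖gt a v w‖ ≤ 4 * N * ((nm v : ℝ) ^ (-(1 + w.re)) * ‖1 - yv v w‖) := by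
  unfold gt
  refine (norm_sum_le_of_le (n := fun _ => 4 * ((nm v : ℝ) ^ (-(1 + w.re)) * ‖1 - yv v w‖)) _
    fun j _ => ?_).trans (le_of_eq ?_)
  · refine (term_bound (h.le34 v j) (norm_yv_le v hw)).trans ?_
    have h1 : (nm v : ℝ) ^ (-(1 + w.re)) = (nm v : ℝ) ^ (-1 : ℝ) * (nm v : ℝ) ^ (-w.re) := by
      rw [← Real.rpow_add (nm_pos v)]
      congr 1
      ring
    rw [h1, norm_yv]
    have h2 := h.sq v j
    have h3 : 0 ≤ (nm v : ℝ) ^ (-w.re) := Real.rpow_nonneg (nm_pos v).le _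
    calc 4 * ‖a v j‖ ^ 2 * ((nm v : ℝ) ^ (-w.re) * ‖1 - yv v w‖)
        ≤ 4 * (nm v : ℝ) ^ (-1 : ℝ) * ((nm v : ℝ) ^ (-w.re) * ‖1 - yv v w‖) := by gcongr
      _ = _ := by ring
  · rw [Finset.sum_const, Finset.card_univ, Fintype.card_fin, nsmul_eq_mul]
    ring

lemma norm_gt_delta (h : Cen a) (v : HeightOneSpectrum (𝓞 K)) {w : ℂ} {δ : ℝ} (hδ : 0 ≤ δ)
    (hw : δ ≤ w.re) : ‖gt a v w‖ ≤ 8 * N * (nm v : ℝ) ^ (-(1 + δ)) := by
  have hw0 : 0 ≤ w.re := hδ.trans hw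
  refine (norm_gt h v hw0).trans ?_
  have h1 := one_sub_yv_two v hw0
  have h2 : (nm v : ℝ) ^ (-(1 + w.re)) ≤ (nm v : ℝ) ^ (-(1 + δ)) :=
    Real.rpow_le_rpow_of_exponent_le (by linarith [two_le v]) (by linarith)
  have h3 : 0 ≤ (nm v : ℝ) ^ (-(1 + δ)) := Real.rpow_nonneg (nm_pos v).le _
  calc 4 * N * ((nm v : ℝ) ^ (-(1 + w.re)) * ‖1 - yv v w‖)
      ≤ 4 * N * ((nm v : ℝ) ^ (-(1 + δ)) * 2) := by gcongr
    _ = _ := by ring

lemma gt_differentiable (h : Cen a) (v : HeightOneSpectrum (𝓞 K)) {w : ℂ} (hw : 0 < w.re) :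
    DifferentiableAt ℂ (gt a v) w := by
  unfold gt
  refine DifferentiableAt.fun_sum fun j _ => ?_
  have hy : DifferentiableAt ℂ (yv v) w := by
    unfold yv
    fun_prop
  refine DifferentiableAt.add (DifferentiableAt.neg (DifferentiableAt.clog ?_ ?_))
    (hy.mul_const _)
  · exact (differentiableAt_const _).sub (hy.const_mul _)
  · have h1 : ‖-(a v j * yv v w)‖ < 1 := by
      rw [norm_neg, norm_mul]
      have h2 := h.le34 v j
      have h3 := norm_yv_le v hw.le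
      nlinarith [norm_nonneg (a v j), norm_nonneg (yv v w)]
    have h4 := Complex.mem_slitPlane_of_norm_lt_one h1
    rwa [← sub_eq_add_neg] at h4

theorem GG_differentiable (h : Cen a) {w : ℂ} (hw : 0 < w.re) : DifferentiableAt ℂ (GG a) w := by
  set U : Set ℂ := {z | w.re / 2 < z.re} with hU
  have hUo : IsOpen U := isOpen_lt continuous_const Complex.continuous_re
  have h1 : DifferentiableOn ℂ (fun z => ∑' v, gt a v z) U := by
    refine Complex.differentiableOn_tsum_of_summable_norm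
      (u := fun v : HeightOneSpectrum (𝓞 K) => 8 * N * (nm v : ℝ) ^ (-(1 + w.re / 2)))
      ((summable_nm (by linarith)).mul_left _) (fun v z hz => ?_) hUo (fun v z hz => ?_)
    · have hz0 : 0 < z.re := by
        have : w.re / 2 < z.re := hz
        linarith
      exact (gt_differentiable h v hz0).differentiableWithinAt
    · exact norm_gt_delta h v (by linarith) (le_of_lt hz)
  exact (h1 w (by show w.re / 2 < w.re; linarith)).differentiableAt (hUo.mem_nhds (by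
    show w.re / 2 < w.re
    linarith))

/-- the correction function is bounded in every sector -/
theorem GG_sector (h : Cen a) {R : ℝ} (hR : 0 ≤ R) : ∃ C : ℝ, ∀ w : ℂ, 0 < w.re →
    ‖w‖ ≤ R * w.re → ‖GG a w‖ ≤ C := by
  obtain ⟨C, σ₀, hσ₀, hC⟩ := place_sum K
  set δ := σ₀ / 2 with hδ
  have hδ0 : 0 < δ := by positivity
  refine ⟨max (4 * N * (R * C)) (∑' v : HeightOneSpectrum (𝓞 K), 8 * N * (nm v : ℝ) ^ (-(1 + δ))),
    fun w hw hwR => ?_⟩
  by_cases hc : δ < w.re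
  · refine le_max_of_le_right ?_
    unfold GG
    exact tsum_of_norm_bounded ((summable_nm (by linarith)).mul_left _).hasSum
      fun v => norm_gt_delta h v hδ0.le hc.le
  · refine le_max_of_le_left ?_
    push Not at hc
    obtain ⟨hs, hle⟩ := hC w.re hw (by linarith)
    have hb : ∀ v : HeightOneSpectrum (𝓞 K), ‖gt a v w‖ ≤
        4 * N * ‖w‖ * (Real.log (nm v) * (nm v : ℝ) ^ (-(1 + w.re))) := by
      intro v
      refine (norm_gt h v hw.le).trans ?_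
      have h1 := one_sub_yv v hw.le
      have h2 : 0 ≤ (nm v : ℝ) ^ (-(1 + w.re)) := Real.rpow_nonneg (nm_pos v).le _
      calc 4 * N * ((nm v : ℝ) ^ (-(1 + w.re)) * ‖1 - yv v w‖)
          ≤ 4 * N * ((nm v : ℝ) ^ (-(1 + w.re)) * (‖w‖ * Real.log (nm v))) := by gcongr
        _ = _ := by ring
    have h9 : ‖GG a w‖ ≤ 4 * N * ‖w‖ *
        ∑' v : HeightOneSpectrum (𝓞 K), Real.log (nm v) * (nm v : ℝ) ^ (-(1 + w.re)) := by
      unfold GG
      rw [← tsum_mul_left]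
      exact tsum_of_norm_bounded (hs.mul_left _).hasSum hb
    have h11 : 0 ≤ ∑' v : HeightOneSpectrum (𝓞 K), Real.log (nm v) * (nm v : ℝ) ^ (-(1 + w.re)) :=
      tsum_nonneg fun v => mul_nonneg (log_nm_nonneg v) (Real.rpow_nonneg (nm_pos v).le _)
    calc ‖GG a w‖ ≤ 4 * N * ‖w‖ *
        ∑' v : HeightOneSpectrum (𝓞 K), Real.log (nm v) * (nm v : ℝ) ^ (-(1 + w.re)) := h9
      _ ≤ 4 * N * (R * w.re) *
        ∑' v : HeightOneSpectrum (𝓞 K), Real.log (nm v) * (nm v : ℝ) ^ (-(1 + w.re)) := by gcongr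
      _ = 4 * N * (R * (w.re *
        ∑' v : HeightOneSpectrum (𝓞 K), Real.log (nm v) * (nm v : ℝ) ^ (-(1 + w.re)))) := by ring
      _ ≤ 4 * N * (R * C) := by gcongr

lemma SS_summable (h : Cen a) {w : ℂ} (hw : 1 / 2 < w.re) :
    Summable fun v : HeightOneSpectrum (𝓞 K) => cv a v * yv v w :=
  Summable.of_norm_bounded ((summable_nm (σ := 1 / 2 + w.re) (by linarith)).mul_left _)
    fun v => norm_cv_yv h v w

lemma norm_cv_yv_one (h : Cen a) (v : HeightOneSpectrum (𝓞 K)) {w : ℂ} (hw : 1 ≤ w.re) :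
    ‖cv a v * yv v w‖ ≤ 4 * N * (nm v : ℝ) ^ (-(3 / 2) : ℝ) := by
  refine (norm_cv_yv h v w).trans ?_
  have h2 : (nm v : ℝ) ^ (-(1 / 2 + w.re)) ≤ (nm v : ℝ) ^ (-(3 / 2) : ℝ) :=
    Real.rpow_le_rpow_of_exponent_le (by linarith [two_le v]) (by linarith)
  gcongr

lemma SS_cont (h : Cen a) : ContinuousOn (SS a) {w | 1 ≤ w.re} := by
  unfold SS
  refine continuousOn_tsum (fun v => ?_) ((summable_nm (K := K) (σ := 3 / 2) (by norm_num)).mul_left _)
    fun v w hw => norm_cv_yv_one h v hw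
  unfold yv
  fun_prop

lemma SS_le (h : Cen a) {w : ℂ} (hw : 1 ≤ w.re) :
    ‖SS a w‖ ≤ ∑' v : HeightOneSpectrum (𝓞 K), 4 * N * (nm v : ℝ) ^ (-(3 / 2) : ℝ) := by
  unfold SS
  exact tsum_of_norm_bounded ((summable_nm (by norm_num)).mul_left _).hasSum
    fun v => norm_cv_yv_one h v hw

/-! ### The parameters of a variety -/

/-- the parameters at the central point `(i+1)/2` -/
noncomputable def ca (i : ℕ) (α : HeightOneSpectrum (𝓞 K) → Fin N → ℂ)
    (v : HeightOneSpectrum (𝓞 K)) (j : Fin N) : ℂ := α v j * (nm v : ℂ) ^ (-(((i : ℂ) + 1) / 2))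

variable {i : ℕ} {α : HeightOneSpectrum (𝓞 K) → Fin N → ℂ}

lemma re_half (i : ℕ) : (((i : ℂ) + 1) / 2).re = ((i : ℝ) + 1) / 2 := by
  have h3 : (((i : ℂ) + 1) / 2) = ((((i : ℝ) + 1) / 2 : ℝ) : ℂ) := by push_cast; rfl
  rw [h3, Complex.ofReal_re]

lemma cen_ca (h : ∀ v j, ‖α v j‖ ≤ (Ideal.absNorm v.asIdeal : ℝ) ^ ((i : ℝ) / 2)) : Cen (ca i α) := by
  intro v j
  have h2 := two_le_nm v
  unfold ca
  rw [norm_mul, Complex.norm_natCast_cpow_of_pos (by omega), Complex.neg_re, re_half]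
  calc ‖α v j‖ * (nm v : ℝ) ^ (-(((i : ℝ) + 1) / 2)) ≤
      (nm v : ℝ) ^ ((i : ℝ) / 2) * (nm v : ℝ) ^ (-(((i : ℝ) + 1) / 2)) :=
        mul_le_mul_of_nonneg_right (h v j) (by positivity)
    _ = (nm v : ℝ) ^ (-(1 / 2) : ℝ) := by
        rw [← Real.rpow_add (nm_pos v)]
        congr 1
        ring

lemma ca_yv (v : HeightOneSpectrum (𝓞 K)) (j : Fin N) (w : ℂ) : ca i α v j * yv v w =
    α v j * (Ideal.absNorm v.asIdeal : ℂ) ^ (-(((i : ℂ) + 1) / 2 + w)) := by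
  have h2 := two_le_nm v
  have hq : (nm v : ℂ) ≠ 0 := Nat.cast_ne_zero.2 (by omega)
  have h3 : yv v w = (nm v : ℂ) ^ (-w) := by
    unfold yv
    rw [Complex.cpow_def_of_ne_zero hq, ← Complex.natCast_log]
    congr 1
    ring
  unfold ca
  rw [h3, mul_assoc, ← Complex.cpow_add _ _ hq]
  change _ = α v j * (nm v : ℂ) ^ (-(((i : ℂ) + 1) / 2 + w))
  congr 2
  ring

/-- the correction function minus the Dirichlet series is the logarithm of the L-function -/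
theorem log_eq (h : ∀ v j, ‖α v j‖ ≤ (Ideal.absNorm v.asIdeal : ℝ) ^ ((i : ℝ) / 2)) {w : ℂ}
    (hw : 1 / 2 < w.re) : GG (ca i α) w - SS (ca i α) w =
      Pool.Agent.R409.EV.logL α (((i : ℂ) + 1) / 2 + w) := by
  have hc := cen_ca h
  have hs1 : Summable fun v : HeightOneSpectrum (𝓞 K) => gt (ca i α) v w :=
    Summable.of_norm_bounded ((summable_nm (σ := 1 + 1 / 2) (by norm_num)).mul_left _)
      fun v => norm_gt_delta hc v (by norm_num) hw.le
  have hs2 := SS_summable hc hw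
  unfold GG SS Pool.Agent.R409.EV.logL
  rw [← hs1.tsum_sub hs2]
  refine tsum_congr fun v => ?_
  unfold gt cv
  rw [Finset.sum_add_distrib, ← Finset.mul_sum]
  simp_rw [ca_yv]
  ring

theorem exp_eq (h : ∀ v j, ‖α v j‖ ≤ (Ideal.absNorm v.asIdeal : ℝ) ^ ((i : ℝ) / 2)) {w : ℂ}
    (hw : 1 / 2 < w.re) : Complex.exp (GG (ca i α) w - SS (ca i α) w) =
      Pool.Agent.R409.EV.LProd α (((i : ℂ) + 1) / 2 + w) := by
  rw [log_eq h hw, Pool.Agent.R409.EV.LProd_exp h]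
  rw [Complex.add_re, re_half]
  linarith

end Pool.Agent.R409.RA
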