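import Pool.Agent.W524.RY.Abs
import Pool.Agent.W189.ML.Sector
import Pool.Agent.R409.EV.Temp

/-!
# Central points of L-functions of odd weight: the correction function
-/

set_option autoImplicit false

namespace Pool.Agent.R409.RA

open NumberField IsDedekindDomain Filter Topology MeasureTheory
open Pool.Agent.TH339.MP (nm pr dg Sp nm_eq dg_pos two_le_nm summable_pr eqv sum_fiber mem_Sp
  sum_dg_le prime_pos two_le_prime)

/-! ### One factor -/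

lemma pow_sub_one_le {y : ℂ} (hy : ‖y‖ ≤ 1) (m : ℕ) : ‖y ^ m - 1‖ ≤ m * ‖1 - y‖ := by
  have h1 : y ^ m - 1 = (∑ i ∈ Finset.range m, y ^ i) * (y - 1) := (geom_sum_mul y m).symm
  rw [h1, norm_mul, norm_sub_rev y 1]
  refine mul_le_mul_of_nonneg_right ?_ (norm_nonneg _)
  refine (norm_sum_le_of_le (n := fun _ => (1 : ℝ)) _ fun i _ => ?_).trans ?_
  · rw [norm_pow]
    exact pow_le_one₀ (norm_nonneg _) hy
  · simp

theorem term_bound {a y : ℂ} (ha : ‖a‖ ≤ 3 / 4) (hy : ‖y‖ ≤ 1) :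
    ‖-Complex.log (1 - a * y) + y * Complex.log (1 - a)‖ ≤ 4 * ‖a‖ ^ 2 * (‖y‖ * ‖1 - y‖) := by
  have hay : ‖a * y‖ < 1 := by
    rw [norm_mul]
    nlinarith [norm_nonneg a, norm_nonneg y]
  have h1 := Complex.hasSum_taylorSeries_neg_log hay
  have h2 := (Complex.hasSum_taylorSeries_neg_log (z := a) (by linarith)).mul_left y
  have h3 := h1.sub h2
  rw [← hasSum_nat_add_iff' 2] at h3
  simp only [Finset.sum_range_succ, Finset.sum_range_zero, pow_zero, Nat.cast_zero, div_zero,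
    mul_zero, sub_zero, add_zero, pow_one, Nat.cast_one, div_one] at h3
  have e1 : -Complex.log (1 - a * y) - y * -Complex.log (1 - a) - (0 + (a * y - y * a)) =
      -Complex.log (1 - a * y) + y * Complex.log (1 - a) := by ring
  rw [e1] at h3
  have hg : HasSum (fun n : ℕ => ‖a‖ ^ 2 * (‖y‖ * ‖1 - y‖) * ‖a‖ ^ n)
      (‖a‖ ^ 2 * (‖y‖ * ‖1 - y‖) * (1 - ‖a‖)⁻¹) :=
    (hasSum_geometric_of_lt_one (norm_nonneg a) (by linarith)).mul_left _
  have h4 := h3.norm_le_of_bounded hg (fun n => ?_)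
  · refine h4.trans ?_
    have h5 : (1 - ‖a‖)⁻¹ ≤ 4 := by
      rw [inv_le_comm₀ (by linarith) (by norm_num)]
      linarith
    calc ‖a‖ ^ 2 * (‖y‖ * ‖1 - y‖) * (1 - ‖a‖)⁻¹ ≤ ‖a‖ ^ 2 * (‖y‖ * ‖1 - y‖) * 4 :=
          mul_le_mul_of_nonneg_left h5 (by positivity)
      _ = _ := by ring
  · have e2 : (a * y) ^ (n + 2) / ((n + 2 : ℕ) : ℂ) - y * (a ^ (n + 2) / ((n + 2 : ℕ) : ℂ)) =
        a ^ (n + 2) * (y * (y ^ (n + 1) - 1)) / ((n + 2 : ℕ) : ℂ) := by ring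
    rw [e2, norm_div, norm_mul, norm_mul, norm_pow, Complex.norm_natCast]
    have h5 := pow_sub_one_le hy (n + 1)
    have hn : (0 : ℝ) < ((n + 2 : ℕ) : ℝ) := by positivity
    rw [div_le_iff₀ hn]
    have h6 : ((n + 1 : ℕ) : ℝ) ≤ ((n + 2 : ℕ) : ℝ) := by exact_mod_cast Nat.le_succ _
    calc ‖a‖ ^ (n + 2) * (‖y‖ * ‖y ^ (n + 1) - 1‖)
        ≤ ‖a‖ ^ (n + 2) * (‖y‖ * (((n + 1 : ℕ) : ℝ) * ‖1 - y‖)) := by gcongr
      _ ≤ ‖a‖ ^ (n + 2) * (‖y‖ * (((n + 2 : ℕ) : ℝ) * ‖1 - y‖)) := by gcongr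
      _ = _ := by ring

lemma log_bound {a : ℂ} (ha : ‖a‖ ≤ 3 / 4) : ‖Complex.log (1 - a)‖ ≤ 4 * ‖a‖ := by
  have h1 := Complex.hasSum_taylorSeries_neg_log (z := a) (by linarith)
  rw [← hasSum_nat_add_iff' 1] at h1
  simp only [Finset.sum_range_succ, Finset.sum_range_zero, pow_zero, Nat.cast_zero, div_zero,
    add_zero, sub_zero] at h1
  have hg : HasSum (fun n : ℕ => ‖a‖ * ‖a‖ ^ n) (‖a‖ * (1 - ‖a‖)⁻¹) :=
    (hasSum_geometric_of_lt_one (norm_nonneg a) (by linarith)).mul_left _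
  have h4 := h1.norm_le_of_bounded hg (fun n => ?_)
  · rw [norm_neg] at h4
    refine h4.trans ?_
    have h5 : (1 - ‖a‖)⁻¹ ≤ 4 := by
      rw [inv_le_comm₀ (by linarith) (by norm_num)]
      linarith
    calc ‖a‖ * (1 - ‖a‖)⁻¹ ≤ ‖a‖ * 4 := mul_le_mul_of_nonneg_left h5 (norm_nonneg _)
      _ = _ := by ring
  · rw [norm_div, norm_pow, Complex.norm_natCast]
    have hn : (1 : ℝ) ≤ ((n + 1 : ℕ) : ℝ) := by exact_mod_cast Nat.le_add_left 1 n
    rw [div_le_iff₀ (by linarith)]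
    calc ‖a‖ ^ (n + 1) = ‖a‖ * ‖a‖ ^ n * 1 := by ring
      _ ≤ ‖a‖ * ‖a‖ ^ n * ((n + 1 : ℕ) : ℝ) := by gcongr

/-! ### The primes of a number field -/

variable {K : Type} [Field K] [NumberField K] {N : ℕ}

lemma nm_pos (v : HeightOneSpectrum (𝓞 K)) : (0 : ℝ) < nm v := by
  have := two_le_nm v
  exact_mod_cast (by omega : 0 < nm v)

lemma two_le (v : HeightOneSpectrum (𝓞 K)) : (2 : ℝ) ≤ nm v := by exact_mod_cast two_le_nm v

lemma pr_le_nm (v : HeightOneSpectrum (𝓞 K)) : ((pr v : ℕ) : ℝ) ≤ nm v := by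
  rw [nm_eq]
  exact_mod_cast Nat.le_self_pow (dg_pos v).ne' _

lemma log_nm (v : HeightOneSpectrum (𝓞 K)) : Real.log (nm v) = dg v * Real.log (pr v : ℕ) := by
  rw [nm_eq]
  push_cast
  rw [Real.log_pow]

lemma summable_nm {σ : ℝ} (hσ : 1 < σ) :
    Summable fun v : HeightOneSpectrum (𝓞 K) => (nm v : ℝ) ^ (-σ) := by
  refine Summable.of_nonneg_of_le (fun v => Real.rpow_nonneg (nm_pos v).le _) (fun v => ?_)
    (summable_pr (K := K) hσ)
  exact Real.rpow_le_rpow_of_nonpos (prime_pos _) (pr_le_nm v) (by linarith)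

/-- the analogue of the sum of `log p / p^{1+σ}` -/
theorem place_sum (K : Type) [Field K] [NumberField K] :
    ∃ C σ₀ : ℝ, 0 < σ₀ ∧ ∀ σ : ℝ, 0 < σ → σ < σ₀ →
    Summable (fun v : HeightOneSpectrum (𝓞 K) => Real.log (nm v) * (nm v : ℝ) ^ (-(1 + σ))) ∧
    σ * ∑' v : HeightOneSpectrum (𝓞 K), Real.log (nm v) * (nm v : ℝ) ^ (-(1 + σ)) ≤ C := by
  obtain ⟨C, σ₀, hσ₀, hC⟩ := Pool.Agent.W189.ML.log_sum_bound
  refine ⟨Module.finrank ℚ K * C, σ₀, hσ₀, fun σ hσ hσ1 => ?_⟩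
  obtain ⟨h1, h2⟩ := hC σ hσ hσ1
  set h : Nat.Primes → ℝ := fun p => Real.log (p : ℕ) * ((p : ℕ) : ℝ) ^ (-(1 + σ)) with hh
  have hh0 : ∀ p, 0 ≤ h p := fun p => mul_nonneg (Real.log_nonneg (by exact_mod_cast p.2.one_le))
    (Real.rpow_nonneg (prime_pos p).le _)
  set g : HeightOneSpectrum (𝓞 K) → ℝ := fun v => dg v * h (pr v) with hg
  have hg0 : ∀ v, 0 ≤ g v := fun v => mul_nonneg (Nat.cast_nonneg _) (hh0 _)
  have hsum : ∀ p : Nat.Primes, ∑ w : {v : HeightOneSpectrum (𝓞 K) // pr v = p}, g w =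
      ((∑ v ∈ (Sp p : Finset (HeightOneSpectrum (𝓞 K))), dg v : ℕ) : ℝ) * h p := by
    intro p
    rw [sum_fiber p g, Nat.cast_sum, Finset.sum_mul]
    refine Finset.sum_congr rfl fun v hv => ?_
    rw [mem_Sp] at hv
    rw [hg]
    simp only
    rw [hv]
  have hle : ∀ p : Nat.Primes, ((∑ v ∈ (Sp p : Finset (HeightOneSpectrum (𝓞 K))), dg v : ℕ) : ℝ) *
      h p ≤ Module.finrank ℚ K * h p := fun p =>
    mul_le_mul_of_nonneg_right (by exact_mod_cast sum_dg_le p) (hh0 p)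
  have hgs' : Summable fun x : (Σ p : Nat.Primes, {v : HeightOneSpectrum (𝓞 K) // pr v = p}) =>
      g x.2.1 := by
    rw [summable_sigma_of_nonneg fun x => hg0 _]
    refine ⟨fun p => (hasSum_fintype _).summable, ?_⟩
    refine Summable.of_nonneg_of_le (fun p => tsum_nonneg fun x => hg0 _) (fun p => ?_)
      (h1.mul_left (Module.finrank ℚ K : ℝ))
    rw [tsum_fintype, hsum]
    exact hle p
  have hgs : Summable g := (eqv (K := K)).summable_iff.1 hgs'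
  have hgt : ∑' v, g v ≤ Module.finrank ℚ K * ∑' p, h p := by
    have h3 : ∑' x : (Σ p : Nat.Primes, {v : HeightOneSpectrum (𝓞 K) // pr v = p}), g x.2.1 =
        ∑' v, g v := (eqv (K := K)).tsum_eq g
    rw [← h3, hgs'.tsum_sigma, ← tsum_mul_left]
    refine Summable.tsum_le_tsum (fun p => ?_) ?_ (h1.mul_left _)
    · rw [tsum_fintype, hsum]
      exact hle p
    · exact hgs'.sigma
  have hfg : ∀ v : HeightOneSpectrum (𝓞 K), Real.log (nm v) * (nm v : ℝ) ^ (-(1 + σ)) ≤ g v := by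
    intro v
    have h3 : (nm v : ℝ) ^ (-(1 + σ)) ≤ ((pr v : ℕ) : ℝ) ^ (-(1 + σ)) :=
      Real.rpow_le_rpow_of_nonpos (prime_pos _) (pr_le_nm v) (by linarith)
    have h4 : 0 ≤ Real.log (pr v : ℕ) := Real.log_nonneg (by exact_mod_cast (pr v).2.one_le)
    rw [log_nm, hg, hh]
    simp only
    rw [mul_assoc]
    gcongr
  have hf0 : ∀ v : HeightOneSpectrum (𝓞 K), 0 ≤ Real.log (nm v) * (nm v : ℝ) ^ (-(1 + σ)) :=
    fun v => mul_nonneg (Real.log_nonneg (by linarith [two_le v])) (Real.rpow_nonneg (nm_pos v).le _)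
  have hfs := Summable.of_nonneg_of_le hf0 hfg hgs
  refine ⟨hfs, ?_⟩
  have h5 : ∑' v : HeightOneSpectrum (𝓞 K), Real.log (nm v) * (nm v : ℝ) ^ (-(1 + σ)) ≤
      Module.finrank ℚ K * ∑' p, h p := (hfs.tsum_le_tsum hfg hgs).trans hgt
  calc σ * ∑' v : HeightOneSpectrum (𝓞 K), Real.log (nm v) * (nm v : ℝ) ^ (-(1 + σ))
      ≤ σ * (Module.finrank ℚ K * ∑' p, h p) := mul_le_mul_of_nonneg_left h5 hσ.le
    _ = Module.finrank ℚ K * (σ * ∑' p, h p) := by ring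
    _ ≤ _ := mul_le_mul_of_nonneg_left h2 (Nat.cast_nonneg _)

end Pool.Agent.R409.RA
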