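import Pool.Agent.R409.RA.Fun
import Pool.Agent.W524.RY.Fin

/-!
# The rotated means of the logarithms of the Euler factors at the central point
-/

set_option autoImplicit false

namespace Pool.Agent.R409.RA

open NumberField IsDedekindDomain Filter Topology MeasureTheory
open Pool.Agent.TH339.MP (nm two_le_nm)
open Pool.Agent.W524.RY (dir dir_re dir_im dir_ne dir_mul_re dir_mul_real_re main_abs inv_gamma_le
  J_cexp)
open Pool.Agent.W189.ML (grow HS J J_hasSum J_const_mul Adm)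

variable {K : Type} [Field K] [NumberField K] {N : ℕ}
  {a : HeightOneSpectrum (𝓞 K) → Fin N → ℂ}

instance countable_places (K : Type) [Field K] [NumberField K] :
    Countable (HeightOneSpectrum (𝓞 K)) :=
  (Pool.Agent.TH339.MP.eqv (K := K)).symm.injective.countable

/-- the weights -/
noncomputable def wgt (τ T : ℝ) (v : HeightOneSpectrum (𝓞 K)) : ℂ :=
  (Complex.Gamma (1 + dir τ * (Real.log (nm v) / T)))⁻¹

/-- the mean -/
noncomputable def cmean (a : HeightOneSpectrum (𝓞 K) → Fin N → ℂ) (τ T : ℝ) : ℂ :=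
  ∑' v : HeightOneSpectrum (𝓞 K), cv a v * wgt τ T v

theorem cmean_eq (h : Cen a) (τ : ℝ) {T : ℝ} (hT : 1 ≤ T) (hτ : Real.pi * |τ| ≤ T) :
    J (3 * T) (fun z => SS a (dir τ * (z / T))) = cmean a τ T := by
  have hT0 : (0 : ℝ) < T := by linarith
  have hre : ∀ z ∈ HS (3 * T), 2 ≤ (dir τ * (z / T)).re := by
    intro z hz
    have e1 : (z / T).re = z.re / T := by simp
    have e2 : (z / T).im = z.im / T := by simp
    rw [dir_mul_re, e1, e2]
    have h1 : 3 ≤ z.re / T := by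
      rw [le_div_iff₀ hT0]
      exact hz.1
    have h2 : τ * (z.im / T) ≤ 1 := by
      rw [mul_div_assoc', div_le_one hT0]
      have h3 : τ * z.im ≤ |τ| * |z.im| := by rw [← abs_mul]; exact le_abs_self _
      have h4 : |τ| * |z.im| ≤ |τ| * Real.pi := mul_le_mul_of_nonneg_left hz.2 (abs_nonneg _)
      linarith
    linarith
  have hb : ∀ (v : HeightOneSpectrum (𝓞 K)), ∀ z ∈ HS (3 * T),
      ‖cv a v * yv v (dir τ * (z / T))‖ ≤ 4 * N * (nm v : ℝ) ^ (-(3 / 2) : ℝ) :=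
    fun v z hz => norm_cv_yv_one h v (by linarith [hre z hz])
  have h1 := J_hasSum (a := 3 * T) (by positivity)
    (F := fun (v : HeightOneSpectrum (𝓞 K)) z => cv a v * yv v (dir τ * (z / T)))
    ((summable_nm (K := K) (σ := 3 / 2) (by norm_num)).mul_left (4 * (N : ℝ)))
    (fun v => ⟨by unfold yv; fun_prop, 4 * N * (nm v : ℝ) ^ (-(3 / 2) : ℝ), 0,
      mul_nonneg (by positivity) (Real.rpow_nonneg (nm_pos v).le _), le_rfl,
      fun z hz => by
        have := hb v z hz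
        simpa using this⟩) hb
  have h2 : ∀ v : HeightOneSpectrum (𝓞 K), J (3 * T) (fun z => cv a v * yv v (dir τ * (z / T))) =
      cv a v * wgt τ T v := by
    intro v
    have e3 : (fun z : ℂ => cv a v * yv v (dir τ * (z / T))) =
        fun z => cv a v * Complex.exp (-(z * (dir τ * (Real.log (nm v) / T)))) := by
      funext z
      unfold yv
      congr 2
      ring
    rw [e3, J_const_mul, J_cexp]
    rfl
  simp only [h2] at h1
  exact h1.tsum_eq.symm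

/-- **The asymptotic formula for the mean**, abstract form. -/
theorem cmean_abs {i : ℕ} {α : HeightOneSpectrum (𝓞 K) → Fin N → ℂ}
    (h : ∀ v j, ‖α v j‖ ≤ (Ideal.absNorm v.asIdeal : ℝ) ^ ((i : ℝ) / 2)) (τ : ℝ) {x₀ x₁ : ℝ}
    (h0 : 0 ≤ x₁) (h01 : x₁ ≤ x₀) (h1 : x₀ ≤ 1) (m : ℤ) {Q : ℂ → ℂ}
    (hQ : ∀ x ∈ Set.Icc x₁ 3, AnalyticAt ℂ Q (x : ℂ)) (hQ0 : ∀ x ∈ Set.Icc x₁ 3, Q (x : ℂ) ≠ 0)
    (hΦ : ∀ᶠ w in 𝓝 (3 : ℂ), Pool.Agent.R409.EV.LProd α (((i : ℂ) + 1) / 2 + dir τ * w) =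
      (w - x₀) ^ m * Q w) :
    ∃ C T₀ : ℝ, 0 ≤ C ∧ 1 ≤ T₀ ∧ ∀ T : ℝ, T₀ ≤ T →
      ‖cmean (ca i α) τ T - m * ((Real.log T + grow (x₀ * T) : ℝ) : ℂ)‖ ≤
        C * Real.exp (Real.exp (x₁ * T)) := by
  have hc := cen_ca h
  set κ : ℝ := 1 / (2 * (1 + |τ|)) with hκ
  have hτ0 := abs_nonneg τ
  have hκ0 : 0 < κ := by positivity
  have hκτ : |τ| * κ ≤ 1 / 2 := by
    rw [hκ, mul_one_div, div_le_iff₀ (by positivity)]
    linarith
  obtain ⟨CG, hCG⟩ := GG_sector hc (R := 4 * (1 + |τ|)) (by positivity)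
  -- the geometry of the sector
  have hsec : ∀ ζ : ℂ, 0 < ζ.re → |ζ.im| ≤ κ * ζ.re →
      0 < (dir τ * ζ).re ∧ ‖dir τ * ζ‖ ≤ 4 * (1 + |τ|) * (dir τ * ζ).re := by
    intro ζ hζ hζi
    have e1 : τ * ζ.im ≤ 1 / 2 * ζ.re := by
      calc τ * ζ.im ≤ |τ| * |ζ.im| := by rw [← abs_mul]; exact le_abs_self _
        _ ≤ |τ| * (κ * ζ.re) := mul_le_mul_of_nonneg_left hζi hτ0
        _ = (|τ| * κ) * ζ.re := by ring
        _ ≤ 1 / 2 * ζ.re := mul_le_mul_of_nonneg_right hκτ hζ.le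
    have e2 : 1 / 2 * ζ.re ≤ (dir τ * ζ).re := by
      rw [dir_mul_re]; linarith
    refine ⟨by linarith, ?_⟩
    have e3 : ‖dir τ‖ ≤ 1 + |τ| := by
      have := Complex.norm_le_abs_re_add_abs_im (dir τ)
      simpa using this
    have e4 : ‖ζ‖ ≤ 2 * ζ.re := by
      have h5 := Complex.norm_le_abs_re_add_abs_im ζ
      rw [abs_of_pos hζ] at h5
      have h6 : κ ≤ 1 := by
        rw [hκ, div_le_one (by positivity)]
        linarith
      have : κ * ζ.re ≤ 1 * ζ.re := mul_le_mul_of_nonneg_right h6 hζ.le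
      linarith
    rw [norm_mul]
    calc ‖dir τ‖ * ‖ζ‖ ≤ (1 + |τ|) * (2 * ζ.re) := by gcongr
      _ = 4 * (1 + |τ|) * (1 / 2 * ζ.re) := by ring
      _ ≤ _ := by gcongr
  have hstrip : ∀ ζ : ℂ, 3 ≤ ζ.re → |ζ.im| ≤ κ → 1 ≤ (dir τ * ζ).re := by
    intro ζ hζ hζi
    rw [dir_mul_re]
    have : τ * ζ.im ≤ 1 / 2 := by
      calc τ * ζ.im ≤ |τ| * |ζ.im| := by rw [← abs_mul]; exact le_abs_self _
        _ ≤ |τ| * κ := mul_le_mul_of_nonneg_left hζi hτ0
        _ ≤ 1 / 2 := hκτ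
    linarith
  have hdir3 : (dir τ * 3).re = 3 := by
    simp
  have hscont : ContinuousOn (fun ζ => SS (ca i α) (dir τ * ζ)) {ζ | 3 ≤ ζ.re ∧ |ζ.im| ≤ κ} :=
    (SS_cont hc).comp (by fun_prop) fun ζ hζ => hstrip ζ hζ.1 hζ.2
  have hscont3 : ContinuousAt (fun ζ => SS (ca i α) (dir τ * ζ)) 3 := by
    have h5 : ContinuousAt (SS (ca i α)) (dir τ * 3) := by
      refine (SS_cont hc).continuousAt ?_
      have h6 : {w : ℂ | 1 < w.re} ∈ 𝓝 (dir τ * 3) := by
        refine (isOpen_lt continuous_const Complex.continuous_re).mem_nhds ?_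
        show (1 : ℝ) < (dir τ * 3).re
        rw [hdir3]
        norm_num
      filter_upwards [h6] with w hw
      exact le_of_lt hw
    exact ContinuousAt.comp (g := SS (ca i α)) (f := fun ζ : ℂ => dir τ * ζ) h5 (by fun_prop)
  obtain ⟨C, T₀, hC⟩ := main_abs (S := fun ζ => SS (ca i α) (dir τ * ζ))
    (G := fun ζ => GG (ca i α) (dir τ * ζ)) (Q := Q) (κ := κ) (CG := CG)
    (CS := ∑' v : HeightOneSpectrum (𝓞 K), 4 * N * (nm v : ℝ) ^ (-(3 / 2) : ℝ))
    hκ0 h0 h01 h1 m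
    (fun ζ h2 h3 => DifferentiableAt.comp (g := GG (ca i α)) (f := fun ζ : ℂ => dir τ * ζ) ζ
      (GG_differentiable hc (hsec ζ h2 h3).1) (by fun_prop))
    (fun ζ h2 h3 => hCG _ (hsec ζ h2 h3).1 (hsec ζ h2 h3).2)
    hscont (fun ζ h2 h3 => SS_le hc (hstrip ζ h2 h3)) hscont3 hQ hQ0 (by
      have e1 : {w : ℂ | 1 / 2 < (dir τ * w).re} ∈ 𝓝 (3 : ℂ) := by
        refine (isOpen_lt continuous_const (Complex.continuous_re.comp (by fun_prop))).mem_nhds ?_
        show (1 / 2 : ℝ) < (dir τ * 3).re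
        rw [hdir3]
        norm_num
      filter_upwards [e1, hΦ] with w hw hw2
      rw [exp_eq h hw, hw2])
  refine ⟨|C|, max T₀ (max 1 (Real.pi * |τ|)), abs_nonneg _,
    (le_max_left _ _).trans (le_max_right _ _), fun T hT => ?_⟩
  have hT1 : 1 ≤ T := ((le_max_left _ _).trans (le_max_right _ _)).trans hT
  have hTτ : Real.pi * |τ| ≤ T := ((le_max_right _ _).trans (le_max_right _ _)).trans hT
  have h3 := hC T ((le_max_left _ _).trans hT)
  rw [cmean_eq hc τ hT1 hTτ] at h3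
  exact h3.trans (mul_le_mul_of_nonneg_right (le_abs_self C) (Real.exp_pos _).le)

/-! ### Absolute convergence -/

lemma wgt_le (τ : ℝ) {T : ℝ} (hT : 0 < T) (v : HeightOneSpectrum (𝓞 K)) :
    ‖wgt τ T v‖ ≤ (Real.exp (Real.exp (2 * T + Real.pi * |τ|)) + 1) * (nm v : ℝ) ^ (-2 : ℝ) := by
  have hv : 0 ≤ Real.log (nm v) / T := div_nonneg (log_nm_nonneg v) hT.le
  have h2 := inv_gamma_le τ (c := 2 * T + Real.pi * |τ|) (by positivity) hv
  have h3 : Real.exp (-((2 * T + Real.pi * |τ| - Real.pi * |τ|) * (Real.log (nm v) / T))) =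
      (nm v : ℝ) ^ (-2 : ℝ) := by
    rw [Real.rpow_def_of_pos (nm_pos v)]
    congr 1
    field_simp
    ring
  rw [h3] at h2
  unfold wgt
  rw [Complex.ofReal_div] at h2
  exact h2

theorem cmean_summable (h : Cen a) (τ : ℝ) {T : ℝ} (hT : 0 < T) :
    Summable fun v : HeightOneSpectrum (𝓞 K) => ‖cv a v * wgt τ T v‖ := by
  refine Summable.of_nonneg_of_le (fun v => norm_nonneg _) (fun v => ?_)
    ((summable_nm (K := K) (σ := 2) (by norm_num)).mul_left
      (4 * N * (Real.exp (Real.exp (2 * T + Real.pi * |τ|)) + 1)))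
  rw [norm_mul]
  have h1 := norm_cv h v
  have h2 : (nm v : ℝ) ^ (-(1 / 2) : ℝ) ≤ 1 :=
    Real.rpow_le_one_of_one_le_of_nonpos (by linarith [two_le v]) (by norm_num)
  have h3 : ‖cv a v‖ ≤ 4 * N := h1.trans (mul_le_of_le_one_right (by positivity) h2)
  calc ‖cv a v‖ * ‖wgt τ T v‖ ≤ (4 * N) *
        ((Real.exp (Real.exp (2 * T + Real.pi * |τ|)) + 1) * (nm v : ℝ) ^ (-2 : ℝ)) :=
        mul_le_mul h3 (wgt_le τ hT v) (norm_nonneg _) (by positivity)
    _ = _ := by ring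

/-- the weight of a fixed prime is bounded -/
lemma wgt_bdd (τ : ℝ) (v : HeightOneSpectrum (𝓞 K)) : ∃ B : ℝ, ∀ᶠ T : ℝ in atTop,
    ‖wgt τ T v‖ ≤ B := by
  refine ⟨(Real.exp 1 + 1) * Real.exp 1, ?_⟩
  filter_upwards [eventually_gt_atTop 0, eventually_ge_atTop (Real.pi * |τ| * Real.log (nm v))]
    with T h1 h2
  have hv : 0 ≤ Real.log (nm v) / T := div_nonneg (log_nm_nonneg v) h1.le
  have h3 := inv_gamma_le τ (c := 0) le_rfl hv
  rw [Real.exp_zero, Complex.ofReal_div] at h3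
  unfold wgt
  refine h3.trans (mul_le_mul_of_nonneg_left (Real.exp_le_exp.2 ?_) (by positivity))
  have e1 : -((0 - Real.pi * |τ|) * (Real.log (nm v) / T)) = Real.pi * |τ| * Real.log (nm v) / T := by
    ring
  rw [e1, div_le_one h1]
  exact h2

end Pool.Agent.R409.RA
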