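import Pool.Agent.R409.RA.Mean

/-!
# Meromorphic continuation to the central line
-/

set_option autoImplicit false

namespace Pool.Agent.R409.RA

open NumberField IsDedekindDomain Filter Topology MeasureTheory
open Pool.Agent.TH339.MP (nm two_le_nm FF)
open Pool.Agent.W524.RY (dir dir_re dir_im dir_ne dir_mul_re dir_mul_real_re)
open Pool.Agent.W189.ML (grow)
open Pool.Agent.R409.EV (LProd bT bT_bound LProd_eq)

/-! ### Normal forms -/

/-- the function corrected at its removable singularities -/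
noncomputable def nfm (R : ℂ → ℂ) (w : ℂ) : ℂ := toMeromorphicNFAt R w w

lemma nfm_eq {R : ℂ → ℂ} {x : ℂ} (h : MeromorphicAt R x) : nfm R =ᶠ[𝓝 x] toMeromorphicNFAt R x := by
  have h1 := h.eventually_analyticAt
  rw [eventually_nhdsWithin_iff] at h1
  filter_upwards [h1] with w hw
  by_cases hwx : w = x
  · rw [hwx]
    rfl
  · have h2 := hw hwx
    unfold nfm
    rw [toMeromorphicNFAt_eq_self.2 h2.meromorphicNFAt]
    exact h.eqOn_compl_singleton_toMeromorphicNFAt hwx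

lemma nfm_analytic {R : ℂ → ℂ} {x : ℂ} (h : MeromorphicAt R x) (h0 : meromorphicOrderAt R x = 0) :
    AnalyticAt ℂ (nfm R) x ∧ nfm R x ≠ 0 := by
  refine ⟨(h.meromorphicOrderAt_nonneg_iff_analyticAt_toMeromorphicNFAt.1 h0.ge).congr
    (nfm_eq h).symm, ?_⟩
  exact h.meromorphicOrderAt_eq_zero_iff_toMeromorphicNFAt_ne_zero.1 h0

lemma nfm_self {R : ℂ → ℂ} {x : ℂ} (h : AnalyticAt ℂ R x) : nfm R =ᶠ[𝓝 x] R := by
  filter_upwards [h.eventually_analyticAt] with w hw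
  unfold nfm
  rw [toMeromorphicNFAt_eq_self.2 hw.meromorphicNFAt]

/-! ### The L-function -/

variable {K : Type} [Field K] [NumberField K] {N i : ℕ}
  {α : HeightOneSpectrum (𝓞 K) → Fin N → ℂ} {F : ℂ → ℂ}

lemma re_shift {s : ℂ} (hs : (i : ℝ) / 2 + 1 < s.re) : 1 < (s - (i : ℂ) / 2).re :=
  Pool.Agent.R409.EV.re_sub hs

lemma LProd_nhds (h : ∀ v j, ‖α v j‖ ≤ (Ideal.absNorm v.asIdeal : ℝ) ^ ((i : ℝ) / 2)) {s : ℂ}
    (hs : (i : ℝ) / 2 + 1 < s.re) :
    LProd α =ᶠ[𝓝 s] fun z => Complex.exp (FF (bT i α) (z - (i : ℂ) / 2)) := by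
  have ho : IsOpen {z : ℂ | (i : ℝ) / 2 + 1 < z.re} := isOpen_lt continuous_const Complex.continuous_re
  filter_upwards [ho.mem_nhds hs] with z hz
  have h1 := LProd_eq h (re_shift hz)
  rwa [sub_add_cancel] at h1

lemma LProd_analytic (h : ∀ v j, ‖α v j‖ ≤ (Ideal.absNorm v.asIdeal : ℝ) ^ ((i : ℝ) / 2)) {s : ℂ}
    (hs : (i : ℝ) / 2 + 1 < s.re) : AnalyticAt ℂ (LProd α) s ∧ LProd α s ≠ 0 := by
  have h1 := LProd_nhds h hs
  have ho : IsOpen {z : ℂ | 1 < z.re} := isOpen_lt continuous_const Complex.continuous_re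
  have h2 : AnalyticAt ℂ (FF (bT i α)) (s - (i : ℂ) / 2) :=
    (Pool.Agent.TH339.MP.differentiableOn_FF (bT_bound h)).analyticAt (ho.mem_nhds (re_shift hs))
  refine ⟨AnalyticAt.congr ?_ h1.symm, ?_⟩
  · have h3 : AnalyticAt ℂ (fun z => FF (bT i α) (z - (i : ℂ) / 2)) s :=
      AnalyticAt.fun_comp (g := FF (bT i α)) (f := fun z : ℂ => z - (i : ℂ) / 2) h2 (by fun_prop)
    exact h3.cexp
  · rw [h1.self_of_nhds]
    exact Complex.exp_ne_zero _

/-- `F` continues the L-function meromorphically to the closed half-plane to the right of the central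
line -/
structure Cont (i : ℕ) (α : HeightOneSpectrum (𝓞 K) → Fin N → ℂ) (F : ℂ → ℂ) : Prop where
  temp : ∀ v j, ‖α v j‖ ≤ (Ideal.absNorm v.asIdeal : ℝ) ^ ((i : ℝ) / 2)
  mer : ∀ s : ℂ, ((i : ℝ) + 1) / 2 ≤ s.re → MeromorphicAt F s
  eq : ∀ s : ℂ, (i : ℝ) / 2 + 1 < s.re → F s = LProd α s

lemma Cont.analytic (h : Cont i α F) {s : ℂ} (hs : (i : ℝ) / 2 + 1 < s.re) :
    AnalyticAt ℂ F s ∧ F s ≠ 0 := by
  obtain ⟨h1, h2⟩ := LProd_analytic h.temp hs
  have ho : IsOpen {z : ℂ | (i : ℝ) / 2 + 1 < z.re} := isOpen_lt continuous_const Complex.continuous_re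
  refine ⟨h1.congr ?_, by rwa [h.eq s hs]⟩
  filter_upwards [ho.mem_nhds hs] with z hz
  exact (h.eq z hz).symm

lemma order_of_ne {f : ℂ → ℂ} {s : ℂ} (h : AnalyticAt ℂ f s) (h0 : f s ≠ 0) :
    meromorphicOrderAt f s = 0 := by
  have h1 := (meromorphicOrderAt_eq_int_iff (n := 0) h.meromorphicAt).2 ⟨f, h, h0, by
    refine Eventually.of_forall fun z => ?_
    rw [zpow_zero, one_smul]⟩
  exact_mod_cast h1

lemma Cont.order_right (h : Cont i α F) {s : ℂ} (hs : (i : ℝ) / 2 + 1 < s.re) :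
    meromorphicOrderAt F s = 0 := order_of_ne (h.analytic hs).1 (h.analytic hs).2

lemma Cont.ne_top (h : Cont i α F) {s : ℂ} (hs : ((i : ℝ) + 1) / 2 ≤ s.re) :
    meromorphicOrderAt F s ≠ ⊤ := by
  have hU : IsPreconnected {z : ℂ | ((i : ℝ) + 1) / 2 ≤ z.re} :=
    (convex_halfSpace_re_ge _).isPreconnected
  have h1 : (i : ℝ) / 2 + 1 < (((i : ℝ) / 2 + 2 : ℝ) : ℂ).re := by
    rw [Complex.ofReal_re]
    linarith
  refine MeromorphicOn.meromorphicOrderAt_ne_top_of_isPreconnected (fun z hz => h.mer z hz) hU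
    (x := (((i : ℝ) / 2 + 2 : ℝ) : ℂ)) ?_ hs ?_
  · show ((i : ℝ) + 1) / 2 ≤ (((i : ℝ) / 2 + 2 : ℝ) : ℂ).re
    linarith
  · rw [h.order_right h1]
    exact WithTop.zero_ne_top

lemma Cont.punctured (h : Cont i α F) {s : ℂ} (hs : ((i : ℝ) + 1) / 2 ≤ s.re) :
    ∀ᶠ z in 𝓝[≠] s, meromorphicOrderAt F z = 0 := by
  have h1 := h.mer s hs
  filter_upwards [h1.eventually_analyticAt,
    (meromorphicOrderAt_ne_top_iff_eventually_ne_zero h1).1 (h.ne_top hs)] with z hz hz0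
  exact order_of_ne hz hz0

theorem Cont.finite_bad (h : Cont i α F) {R : Set ℂ} (hR : IsCompact R)
    (hR2 : ∀ s ∈ R, ((i : ℝ) + 1) / 2 ≤ s.re) : {s | s ∈ R ∧ meromorphicOrderAt F s ≠ 0}.Finite := by
  by_contra hinf
  obtain ⟨z, hz, hacc⟩ := Set.Infinite.exists_accPt_of_subset_isCompact hinf hR (fun w hw => hw.1)
  rw [accPt_iff_frequently_nhdsNE] at hacc
  exact hacc ((h.punctured (hR2 z hz)).mono fun w hw hw2 => hw2.2 hw)

/-- the point of the ray -/
noncomputable def rp (i : ℕ) (τ : ℝ) (x : ℝ) : ℂ := ((i : ℂ) + 1) / 2 + dir τ * x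

lemma rp_re (i : ℕ) (τ x : ℝ) : (rp i τ x).re = ((i : ℝ) + 1) / 2 + x := by
  unfold rp
  rw [Complex.add_re, re_half, dir_mul_real_re]

lemma continuous_rp (i : ℕ) (τ : ℝ) : Continuous (rp i τ) := by
  unfold rp
  fun_prop

lemma rp_injective (i : ℕ) (τ : ℝ) : Function.Injective (rp i τ) := by
  intro x y hxy
  have := congrArg Complex.re hxy
  rw [rp_re, rp_re] at this
  linarith

/-- the last zero or pole on a ray -/
theorem Cont.exists_last (h : Cont i α F) (τ : ℝ) : ∃ x₀ : ℝ, 0 ≤ x₀ ∧ x₀ ≤ 1 ∧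
    (∀ x : ℝ, x₀ < x → meromorphicOrderAt F (rp i τ x) = 0) ∧
    (x₀ = 0 ∨ meromorphicOrderAt F (rp i τ x₀) ≠ 0) := by
  classical
  have hbig : ∀ x : ℝ, 1 < x → meromorphicOrderAt F (rp i τ x) = 0 := by
    intro x hx
    apply h.order_right
    rw [rp_re]
    linarith
  have hfin : {x : ℝ | x ∈ Set.Icc (0 : ℝ) 1 ∧ meromorphicOrderAt F (rp i τ x) ≠ 0}.Finite := by
    have h1 := h.finite_bad (R := rp i τ '' Set.Icc 0 1) (isCompact_Icc.image (continuous_rp i τ)) (by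
      rintro _ ⟨x, hx, rfl⟩
      rw [rp_re]
      linarith [hx.1])
    refine (h1.preimage (rp_injective i τ).injOn).subset ?_
    rintro x ⟨hx, hx2⟩
    exact ⟨⟨x, hx, rfl⟩, hx2⟩
  by_cases hne : (hfin.toFinset).Nonempty
  · obtain ⟨x₀, hx₀, hmax⟩ := hfin.toFinset.exists_max_image (fun x => x) hne
    rw [Set.Finite.mem_toFinset] at hx₀
    refine ⟨x₀, hx₀.1.1, hx₀.1.2, fun x hx => ?_, Or.inr hx₀.2⟩
    by_contra hcon
    by_cases h2 : 1 < x
    · exact hcon (hbig x h2)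
    · push Not at h2
      have h3 := hmax x (by
        rw [Set.Finite.mem_toFinset]
        exact ⟨⟨by linarith [hx₀.1.1], h2⟩, hcon⟩)
      linarith
  · refine ⟨0, le_rfl, zero_le_one, fun x hx => ?_, Or.inl rfl⟩
    by_contra hcon
    by_cases h2 : 1 < x
    · exact hcon (hbig x h2)
    · push Not at h2
      refine hne ⟨x, ?_⟩
      rw [Set.Finite.mem_toFinset]
      exact ⟨⟨hx.le, h2⟩, hcon⟩

/-- only finitely many directions with bounded slope are blocked -/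
theorem Cont.blocked_finite (h : Cont i α F) (B : ℝ) :
    {τ : ℝ | |τ| ≤ B ∧ ∃ x : ℝ, 0 < x ∧ meromorphicOrderAt F (rp i τ x) ≠ 0}.Finite := by
  set R : Set ℂ := (Set.Icc (((i : ℝ) + 1) / 2) (((i : ℝ) + 1) / 2 + 1)) ×ℂ (Set.Icc (-B) B) with hR
  have hRc : IsCompact R := isCompact_Icc.reProdIm isCompact_Icc
  have h1 := h.finite_bad hRc (fun s hs => by
    rw [hR, Complex.mem_reProdIm] at hs
    exact hs.1.1)
  refine (h1.image (fun w : ℂ => w.im / (w.re - ((i : ℝ) + 1) / 2))).subset ?_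
  rintro τ ⟨hτ, x, hx, hz⟩
  have him : (rp i τ x).im = τ * x := by
    unfold rp
    rw [Complex.add_im, Complex.mul_im]
    have : (((i : ℂ) + 1) / 2).im = 0 := by
      have h3 : (((i : ℂ) + 1) / 2) = ((((i : ℝ) + 1) / 2 : ℝ) : ℂ) := by push_cast; rfl
      rw [h3, Complex.ofReal_im]
    rw [this]
    simp
  have hx1 : x ≤ 1 := by
    by_contra hc
    push Not at hc
    apply hz
    apply h.order_right
    rw [rp_re]
    linarith
  refine ⟨rp i τ x, ⟨?_, hz⟩, ?_⟩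
  · rw [hR, Complex.mem_reProdIm, rp_re, him]
    refine ⟨⟨by linarith, by linarith⟩, ?_⟩
    have h1 := abs_le.1 hτ
    have hB : 0 ≤ B := (abs_nonneg _).trans hτ
    constructor <;> nlinarith
  · simp only
    rw [rp_re, him, add_sub_cancel_left]
    field_simp

/-- **The asymptotic formula for the mean.** -/
theorem Cont.cmean_asymp (h : Cont i α F) (τ : ℝ) {x₀ : ℝ} (h0 : 0 ≤ x₀) (h1 : x₀ ≤ 1) {m : ℤ}
    (hm : meromorphicOrderAt F (rp i τ x₀) = m)
    (hnz : ∀ x : ℝ, x₀ < x → meromorphicOrderAt F (rp i τ x) = 0) :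
    ∃ x₁ : ℝ, 0 ≤ x₁ ∧ x₁ ≤ x₀ ∧ (0 < x₀ → x₁ < x₀) ∧ ∃ C T₀ : ℝ, 0 ≤ C ∧ 1 ≤ T₀ ∧
      ∀ T : ℝ, T₀ ≤ T →
      ‖cmean (ca i α) τ T - m * ((Real.log T + grow (x₀ * T) : ℝ) : ℂ)‖ ≤
        C * Real.exp (Real.exp (x₁ * T)) := by
  set L : ℂ → ℂ := fun w => ((i : ℂ) + 1) / 2 + dir τ * w with hL
  have hLan : ∀ w, AnalyticAt ℂ L w := fun w => by
    rw [hL]
    fun_prop
  have hLd : ∀ w, deriv L w ≠ 0 := by
    intro w
    have : HasDerivAt L (dir τ) w := by
      have := ((hasDerivAt_id w).const_mul (dir τ)).const_add (((i : ℂ) + 1) / 2)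
      simpa [hL] using this
    rw [this.deriv]
    exact dir_ne τ
  have hLr : ∀ x : ℝ, L x = rp i τ x := fun x => rfl
  set P : ℂ → ℂ := F ∘ L with hP
  have hPord : ∀ w, meromorphicOrderAt P w = meromorphicOrderAt F (L w) := fun w =>
    meromorphicOrderAt_comp_of_deriv_ne_zero (hLan w) (hLd w)
  have hPmer : ∀ x : ℝ, 0 ≤ x → MeromorphicAt P x := by
    intro x hx
    rw [hP, meromorphicAt_comp_iff_of_deriv_ne_zero (hLan _) (hLd _), hLr]
    apply h.mer
    rw [rp_re]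
    linarith
  set R : ℂ → ℂ := fun w => (w - x₀) ^ (-m) * P w with hR
  -- the order of `R`
  have hRmer : ∀ x : ℝ, 0 ≤ x → MeromorphicAt R x := by
    intro x hx
    rw [hR]
    have h2 : MeromorphicAt (fun w : ℂ => (w - x₀) ^ (-m)) x :=
      MeromorphicAt.fun_zpow (by fun_prop) _
    exact h2.fun_mul (hPmer x hx)
  have hR0 : meromorphicOrderAt R (x₀ : ℂ) = 0 := by
    obtain ⟨g, hg, hg0, he⟩ := (meromorphicOrderAt_eq_int_iff (hPmer x₀ h0)).1
      (by rw [hPord, hLr, hm])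
    have h2 := (meromorphicOrderAt_eq_int_iff (n := 0) (hRmer x₀ h0)).2 ⟨g, hg, hg0, by
      filter_upwards [he, self_mem_nhdsWithin] with w hw hw2
      rw [hR]
      simp only
      rw [hw, zpow_zero, one_smul, smul_eq_mul, ← mul_assoc, ← zpow_add₀ (sub_ne_zero.2 hw2),
        neg_add_cancel, zpow_zero, one_mul]⟩
    exact_mod_cast h2
  have hRx : ∀ x : ℝ, 0 ≤ x → x ≠ x₀ → meromorphicOrderAt F (rp i τ x) = 0 →
      meromorphicOrderAt R (x : ℂ) = 0 := by
    intro x hx hx0 hF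
    obtain ⟨g, hg, hg0, he⟩ := (meromorphicOrderAt_eq_int_iff (n := 0) (hPmer x hx)).1
      (by rw [hPord, hLr, hF]; rfl)
    have hne : (x : ℂ) - x₀ ≠ 0 := sub_ne_zero.2 (by exact_mod_cast hx0)
    have h2 := (meromorphicOrderAt_eq_int_iff (n := 0) (hRmer x hx)).2
      ⟨fun w => (w - x₀) ^ (-m) * g w, by
        refine AnalyticAt.fun_mul ?_ hg
        exact AnalyticAt.fun_zpow (by fun_prop) hne, by
        simp only
        exact mul_ne_zero (zpow_ne_zero _ hne) hg0, by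
        filter_upwards [he] with w hw
        rw [hR]
        simp only
        rw [hw, zpow_zero, one_smul, one_smul]⟩
    exact_mod_cast h2
  -- the left end
  obtain ⟨x₁, hx1, hx2, hx3, hx4⟩ : ∃ x₁ : ℝ, 0 ≤ x₁ ∧ x₁ ≤ x₀ ∧ (0 < x₀ → x₁ < x₀) ∧
      ∀ x : ℝ, x₁ ≤ x → x < x₀ → meromorphicOrderAt F (rp i τ x) = 0 := by
    rcases h0.lt_or_eq with h2 | h2
    · have h3 := h.punctured (s := rp i τ x₀) (by rw [rp_re]; linarith)
      have h4 : Tendsto (rp i τ) (𝓝[≠] x₀) (𝓝[≠] (rp i τ x₀)) := by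
        refine tendsto_nhdsWithin_of_tendsto_nhds_of_eventually_within _
          ((continuous_rp i τ).continuousAt.mono_left nhdsWithin_le_nhds) ?_
        filter_upwards [self_mem_nhdsWithin] with x hx hx2
        exact hx (rp_injective i τ hx2)
      have h5 := h4.eventually h3
      rw [eventually_nhdsWithin_iff, Metric.eventually_nhds_iff] at h5
      obtain ⟨ε, hε, h6⟩ := h5
      refine ⟨max 0 (x₀ - ε / 2), le_max_left _ _, max_le h0 (by linarith), fun _ =>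
        max_lt h2 (by linarith), fun x hx hx0 => ?_⟩
      refine h6 ?_ hx0.ne
      have := (le_max_right 0 (x₀ - ε / 2)).trans hx
      rw [Real.dist_eq, abs_lt]
      constructor <;> linarith
    · refine ⟨0, le_rfl, h0, fun h3 => absurd h3 (by rw [← h2]; exact lt_irrefl 0), fun x hx hx0 => ?_⟩
      linarith
  have hord : ∀ x ∈ Set.Icc x₁ 3, meromorphicOrderAt R (x : ℂ) = 0 := by
    intro x hx
    have hx0 : 0 ≤ x := hx1.trans hx.1
    rcases lt_trichotomy x x₀ with h2 | h2 | h2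
    · exact hRx x hx0 h2.ne (hx4 x hx.1 h2)
    · rw [h2]
      exact hR0
    · exact hRx x hx0 h2.ne' (hnz x h2)
  obtain ⟨C, T₀, hC0, hT0, hC⟩ := cmean_abs h.temp τ hx1 hx2 h1 m (Q := nfm R)
    (fun x hx => (nfm_analytic (hRmer x (hx1.trans hx.1)) (hord x hx)).1)
    (fun x hx => (nfm_analytic (hRmer x (hx1.trans hx.1)) (hord x hx)).2) (by
      have h3x : (3 : ℂ) ≠ (x₀ : ℂ) := by
        have : (3 : ℝ) ≠ x₀ := by linarith
        exact_mod_cast this
      have hre3 : (i : ℝ) / 2 + 1 < (L 3).re := by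
        have h2 := hLr 3
        have h3 : ((3 : ℝ) : ℂ) = 3 := by norm_num
        rw [h3] at h2
        rw [h2, rp_re]
        linarith
      have ho : IsOpen {z : ℂ | (i : ℝ) / 2 + 1 < z.re} :=
        isOpen_lt continuous_const Complex.continuous_re
      have hLc : ContinuousAt L 3 := (hLan 3).continuousAt
      have hP3 : AnalyticAt ℂ P 3 := AnalyticAt.comp (g := F) (f := L) (h.analytic hre3).1 (hLan 3)
      have hR3 : AnalyticAt ℂ R 3 := by
        rw [hR]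
        refine AnalyticAt.fun_mul ?_ hP3
        exact AnalyticAt.fun_zpow (by fun_prop) (sub_ne_zero.2 h3x)
      filter_upwards [nfm_self hR3, isOpen_ne.mem_nhds h3x, hLc.eventually (ho.mem_nhds hre3)]
        with w hw hw2 hw3
      rw [hw, hR]
      simp only
      rw [← mul_assoc, ← zpow_add₀ (sub_ne_zero.2 hw2), add_neg_cancel, zpow_zero, one_mul]
      exact (h.eq _ hw3).symm)
  exact ⟨x₁, hx1, hx2, hx3, C, T₀, hC0, hT0, hC⟩

end Pool.Agent.R409.RA
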